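import Mathlib
import Pool.Agent.UMix.Eig
import Pool.Agent.UAA.RAM
import Pool.Agent.UAA.LAM
import Pool.Agent.UAA.TRA
import Pool.Agent.UAA.GEQ
import Pool.Agent.UAA.INTE
import Pool.Agent.UAA.EXP
import Pool.Agent.UAA.UNB
import Pool.Agent.UAA.BND
import Pool.Agent.UAA.TNY
import Pool.Agent.UAA.CNT8
import Pool.Agent.UAA.CNT6
import Pool.Agent.UAA.CNT4
import Pool.Agent.UAA.MOM4
import Pool.Agent.UAA.MOM3
import Pool.Agent.UAA.TYP
import Pool.Agent.UAA.ANN2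
import Pool.Agent.UAA.FOU
import Pool.Agent.UAA.LIN
import Pool.Agent.UAA.DET
import Pool.Agent.UAA.NET
import Pool.Agent.UAA.ALG
import Pool.Agent.UAA.FLT
import Pool.Agent.UAA.MAI
import Pool.Agent.UAA.TO2
import Pool.Agent.UAA.TO3
import Pool.Agent.UAA.TO5
import Pool.Agent.UAB.HLF
import Pool.Agent.UAB.UDF
import Pool.Agent.UAB.TRF
import Pool.Agent.UAB.FLW
import Pool.Agent.UAB.DE1
import Pool.Agent.UAB.DE2
import Pool.Agent.UAB.WRE
import Pool.Agent.UAB.PL1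
import Pool.Agent.UAB.REA
import Pool.Agent.UAB.DEG
import Pool.Agent.UAB.PL2
import Pool.Agent.UAB.LEM
import Pool.Agent.UAB.GRD
import Pool.Agent.UAB.STR
import Pool.Agent.UAB.STQ
import Pool.Agent.UAB.CMV
import Pool.Agent.UAB.CMP
import Pool.Agent.UAB.CTD
import Pool.Agent.UAB.MOM
import Pool.Agent.UAB.TYA
import Pool.Agent.UAB.INT
import Pool.Agent.UAB.BLK
import Pool.Agent.UAB.COS
import Pool.Agent.UAB.VAR
import Pool.Agent.UAB.EXW
import Pool.Agent.UAB.QUA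
import Pool.Agent.UAB.PRC
import Pool.Agent.UAB.WS4
import Pool.Agent.UAB.WS3
import Pool.Agent.UAB.WKK
import Pool.Agent.UAB.MUU
import Pool.Agent.UAB.WIN
import Pool.Agent.UAB.RAP
import Pool.Agent.UAB.RAY
import Pool.Agent.UAB.ZT1
import Pool.Agent.UAB.ZS4
import Pool.Agent.UAB.ZWI
import Pool.Agent.UAB.FIN

/-!
# Uniform mixing on almost all Cayley graphs over `ℤ_q^d`

`G = ℤ_q^d` is `Fin d → ZMod q`; `C` is the connection set, `n = q ^ d`.
-/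

set_option autoImplicit false

namespace Pool.Agent.Results.MP_e32761_co.AlmostAll

/-- The adjacency matrix of the Cayley graph `X(ℤ_q^d, C)`. -/
noncomputable def A {q d : ℕ} (C : Finset (Fin d → ZMod q)) :
    Matrix (Fin d → ZMod q) (Fin d → ZMod q) ℂ :=
  Matrix.of fun x y => if y - x ∈ C then (1 : ℂ) else 0

/-- `C` is inverse-closed and does not contain `0`. -/
def Conn {q d : ℕ} (C : Finset (Fin d → ZMod q)) : Prop :=
  (0 : Fin d → ZMod q) ∉ C ∧ ∀ c ∈ C, -c ∈ C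

/-- Uniform mixing at the time `t`: every entry of `exp(itA)` has absolute value `1 / √n`,
`n = q ^ d`. -/
def UniformMixing {q d : ℕ} [NeZero q] (C : Finset (Fin d → ZMod q)) (t : ℝ) : Prop :=
  ∀ a b : Fin d → ZMod q,
    ‖NormedSpace.exp ((Complex.I * (t : ℂ)) • A C) a b‖ = 1 / Real.sqrt ((q : ℝ) ^ d)

/-- Every eigenvalue of the adjacency matrix is an integer. -/
def IntegerEigenvalues {q d : ℕ} [NeZero q] (C : Finset (Fin d → ZMod q)) : Prop :=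
  ∀ μ : ℂ, (∃ v : (Fin d → ZMod q) → ℂ, v ≠ 0 ∧ (A C).mulVec v = μ • v) → ∃ k : ℤ, μ = (k : ℂ)

/-- The Gram matrix `∑_{c ∈ C} c c^T` over `ℤ_q`. -/
def Gram {q d : ℕ} (C : Finset (Fin d → ZMod q)) : Matrix (Fin d) (Fin d) (ZMod q) :=
  Matrix.of fun i j => ∑ c ∈ C, c i * c j

open Finset Pool.Agent.Lib_helper58.CayleyUM Pool.Agent.UMix

theorem int_iff {q d : ℕ} [NeZero q] (C : Finset (Fin d → ZMod q)) :
    IntegerEigenvalues C ↔ ∀ x : Fin d → ZMod q, ∃ k : ℤ, lam C (chr x) = (k : ℂ) := by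
  constructor
  · intro h x
    exact h _ (lam_eig C (chr x))
  · rintro h μ ⟨v, hv, hA⟩
    obtain ⟨ψ, hψ⟩ := eig_eq_lam C μ v hv hA
    obtain ⟨x, rfl⟩ := chr_bijective.2 ψ
    obtain ⟨k, hk⟩ := h x
    exact ⟨k, hψ.trans hk⟩

theorem um_iff {q d : ℕ} [NeZero q] (C : Finset (Fin d → ZMod q)) (t : ℝ) :
    UniformMixing C t ↔ Flat C t := by
  have hcard : Fintype.card (Fin d → ZMod q) = q ^ d := by
    rw [Fintype.card_fun, ZMod.card, Fintype.card_fin]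
  have hpos : (0 : ℝ) < (q : ℝ) ^ d :=
    pow_pos (Nat.cast_pos.2 (Nat.pos_of_ne_zero (NeZero.ne q))) d
  have hw : ∀ a b : Fin d → ZMod q, walk C (Complex.I * (t : ℂ)) a b = row C t (b - a) := by
    intro a b
    have h1 := walk_apply C (Complex.I * (t : ℂ)) a b
    have h2 := walk_apply C (Complex.I * (t : ℂ)) 0 (b - a)
    have e : (0 : Fin d → ZMod q) - (b - a) = a - b := by abel
    rw [e, ← h1] at h2
    have hn : (Fintype.card (Fin d → ZMod q) : ℂ) ≠ 0 := Nat.cast_ne_zero.2 Fintype.card_ne_zero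
    exact (mul_left_cancel₀ hn h2).symm
  have key : ∀ x : ℝ, 0 ≤ x → (x = 1 / Real.sqrt ((q : ℝ) ^ d) ↔
      x ^ 2 = 1 / (Fintype.card (Fin d → ZMod q) : ℝ)) := by
    intro x hx
    rw [hcard]
    push_cast
    have hs : 0 < Real.sqrt ((q : ℝ) ^ d) := Real.sqrt_pos.2 hpos
    constructor
    · intro h
      rw [h, div_pow, one_pow, Real.sq_sqrt hpos.le]
    · intro h
      have h1 : x ^ 2 = (1 / Real.sqrt ((q : ℝ) ^ d)) ^ 2 := by
        rw [h, div_pow, one_pow, Real.sq_sqrt hpos.le]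
      exact (pow_left_inj₀ hx (by positivity) two_ne_zero).1 h1
  constructor
  · intro h b
    have h1 := h 0 b
    exact (key _ (norm_nonneg _)).1 h1
  · intro h a b
    have h1 := h (b - a)
    rw [← hw] at h1
    exact (key _ (norm_nonneg _)).2 h1

theorem pc_iff {q d : ℕ} [NeZero q] (C : Finset (Fin d → ZMod q)) :
    UAA.PC C ↔ Conn C ∧ IntegerEigenvalues C := by
  rw [UAA.t_INTE UAA.t_RAM q d C, int_iff, Conn, and_assoc]
  exact Iff.rfl

theorem card_filter' {α : Type*} [Fintype α] (P : α → Prop) [DecidablePred P] :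
    ((univ : Finset α).filter P).card = Set.ncard {a | P a} := by
  rw [← Set.ncard_coe_finset]
  congr 1
  ext C
  simp

/-- the main theorem, transferred to the connection sets -/
theorem transfer (q g E : ℕ) [NeZero q] (hq : 2 ≤ q) (hg : 1 ≤ g) (hE : 1 ≤ E)
    (hGE : ∀ d, UAA.GE q d g E) : ∃ K : ℝ, ∀ d : ℕ,
      (Set.ncard {C : Finset (Fin d → ZMod q) | UAA.PC C ∧ ¬ ∀ t : ℝ, Flat C t →
        ∃ j : ℕ, 1 ≤ j ∧ j ≤ E ∧
          Complex.exp (Complex.I * (t : ℂ) * ((g : ℂ) * (j : ℂ))) = 1} : ℝ) *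
        ((q : ℝ) ^ d) ^ (1 / 4 : ℝ) ≤
      K * (Set.ncard {C : Finset (Fin d → ZMod q) | UAA.PC C} : ℝ) := by
  classical
  have hR := UAA.t_RAM
  have hL := UAA.t_LAM hR
  obtain ⟨K, hK, h⟩ := UAA.t_MAI UAA.t_MOM4 UAA.t_MOM3 UAA.t_BND hR hL UAA.t_EXP UAA.t_UNB
    UAA.t_TNY UAA.t_CNT8 UAA.t_CNT6 UAA.t_CNT4 UAA.t_TYP UAA.t_ANN2 UAA.t_FOU UAA.t_PAR UAA.t_LIN
    UAA.t_DET UAA.t_NET UAA.t_ALG UAA.t_FLT q g E hq hg hE hGE
  refine ⟨K, fun d => ?_⟩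
  have h1 := h d
  have h2 := UAA.t_TRA q d (fun C => ¬ ∀ t : ℝ, Flat C t →
        ∃ j : ℕ, 1 ≤ j ∧ j ≤ E ∧
          Complex.exp (Complex.I * (t : ℂ) * ((g : ℂ) * (j : ℂ))) = 1)
  have h3 := UAA.t_TRA q d (fun _ => True)
  rw [card_filter', card_filter'] at h2 h3
  rw [card_filter'] at h1
  rw [← h2, Nat.cast_mul] at h1
  have h4 : Set.ncard {_a : UAA.Om q d | True} = Fintype.card (UAA.Om q d) := by
    rw [Set.ofPred_true, Set.ncard_univ, Nat.card_eq_fintype_card]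
  have h5 : {C : Finset (UAA.G q d) | UAA.PC C ∧ True} =
      {C : Finset (UAA.G q d) | UAA.PC C} := by
    ext C
    simp
  rw [h4, h5] at h3
  rw [← h3, Nat.cast_mul] at h1
  unfold UAA.nn at h1
  push_cast at h1
  linarith

/-- monotonicity of the counting bounds -/
theorem bound_mono {α : Type*} [Finite α] {P Q P' Q' : α → Prop} {K w : ℝ} (hw : 0 ≤ w)
    (hP : ∀ a, P' a → P a) (hQ : ∀ a, Q a ↔ Q' a)
    (h : (Set.ncard {a | P a} : ℝ) * w ≤ K * (Set.ncard {a | Q a} : ℝ)) :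
    (Set.ncard {a | P' a} : ℝ) * w ≤ K * (Set.ncard {a | Q' a} : ℝ) := by
  have h1 : {a | Q a} = {a | Q' a} := Set.ext hQ
  rw [← h1]
  refine le_trans ?_ h
  exact mul_le_mul_of_nonneg_right (Nat.cast_le.2 (Set.ncard_le_ncard hP (Set.toFinite _))) hw

theorem rpow_nn (q d : ℕ) : (0 : ℝ) ≤ ((q : ℝ) ^ d) ^ (1 / 4 : ℝ) := by positivity

/-- the exponential condition -/
theorem exp_iff (t : ℝ) (m : ℂ) (N : ℕ) (hm : m = (N : ℂ)) :
    Complex.exp (Complex.I * (t : ℂ) * m) = 1 ↔ ∃ k : ℤ, (N : ℝ) * t = 2 * Real.pi * (k : ℝ) := by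
  rw [Complex.exp_eq_one_iff, hm]
  constructor
  · rintro ⟨k, hk⟩
    refine ⟨k, ?_⟩
    have h1 : Complex.I * ((N : ℂ) * (t : ℂ)) = Complex.I * (2 * (Real.pi : ℂ) * (k : ℂ)) := by
      rw [show Complex.I * ((N : ℂ) * (t : ℂ)) = Complex.I * (t : ℂ) * (N : ℂ) by ring, hk]
      ring
    have h2 := mul_left_cancel₀ Complex.I_ne_zero h1
    exact_mod_cast h2
  · rintro ⟨k, hk⟩
    refine ⟨k, ?_⟩
    have h2 : (N : ℂ) * (t : ℂ) = 2 * (Real.pi : ℂ) * (k : ℂ) := by exact_mod_cast hk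
    rw [show Complex.I * (t : ℂ) * (N : ℂ) = Complex.I * ((N : ℂ) * (t : ℂ)) by ring, h2]
    ring

theorem pc_two {d : ℕ} (C : Finset (Fin d → ZMod 2)) : UAA.PC C ↔ (0 : Fin d → ZMod 2) ∉ C := by
  constructor
  · exact fun h => h.1
  · intro h
    refine ⟨h, ?_⟩
    rintro c hc c' ⟨u, hu⟩
    have hu1 : (u : ZMod 2) = 1 := by
      rw [Subsingleton.elim u 1, Units.val_one]
    have : c' = c := by
      funext i
      rw [hu i, hu1, one_mul]
    rwa [this]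

theorem pc_three {d : ℕ} (C : Finset (Fin d → ZMod 3)) : UAA.PC C ↔ Conn C := by
  constructor
  · exact fun h => ((pc_iff C).1 h).1
  · rintro ⟨h0, hC⟩
    refine ⟨h0, ?_⟩
    rintro c hc c' ⟨u, hu⟩
    have hu1 : (u : ZMod 3) = 1 ∨ (u : ZMod 3) = -1 := by
      have h3 : ∀ x : ZMod 3, x = 0 ∨ x = 1 ∨ x = -1 := by decide
      rcases h3 (u : ZMod 3) with h | h | h
      · exact absurd h u.ne_zero
      · exact Or.inl h
      · exact Or.inr h
    rcases hu1 with h | h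
    · have : c' = c := by
        funext i
        rw [hu i, h, one_mul]
      rwa [this]
    · have : c' = -c := by
        funext i
        rw [hu i, h, neg_one_mul, Pi.neg_apply]
      rw [this]
      exact hC c hc

/-- the case `q = 2` -/
theorem part_two : ∃ K : ℝ, ∀ d : ℕ, 1 ≤ d →
      (Set.ncard {C : Finset (Fin d → ZMod 2) | Conn C ∧ ¬ ∀ t : ℝ, UniformMixing C t ↔
          (∃ k : ℤ, t = (2 * (k : ℝ) + 1) * Real.pi / 4) ∧ (Gram C).det ≠ 0} : ℝ) *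
          ((2 : ℝ) ^ d) ^ (1 / 4 : ℝ) ≤
        K * (Set.ncard {C : Finset (Fin d → ZMod 2) | Conn C} : ℝ) := by
  obtain ⟨K, h⟩ := transfer 2 2 4 le_rfl (by omega) (by omega) (fun d =>
      (UAA.t_GEQ UAA.t_RAM).2 2 d Nat.prime_two)
  refine ⟨K, fun d hd => ?_⟩
  have h1 := h d
  push_cast at h1
  refine bound_mono (rpow_nn 2 d) ?_ ?_ h1
  · rintro C ⟨hC1, hC2⟩
    refine ⟨(pc_two C).2 hC1.1, fun hall => hC2 fun t => ?_⟩
    rw [um_iff]
    constructor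
    · intro hF
      exact (UAA.t_TO2 d hd C hC1.1 t (hall t hF)).1 hF
    · rintro ⟨⟨k, hk⟩, hdet⟩
      refine (UAA.t_TO2 d hd C hC1.1 t ⟨4, by omega, le_rfl, ?_⟩).2 ⟨⟨k, hk⟩, hdet⟩
      refine (exp_iff t _ 8 (by norm_num)).2 ⟨2 * k + 1, ?_⟩
      rw [hk]
      push_cast
      ring
  · intro C
    rw [pc_two, Conn]
    constructor
    · intro h0
      refine ⟨h0, fun c hc => ?_⟩
      have : -c = c := by
        funext i
        exact ZMod.neg_eq_self_mod_two (c i)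
      rwa [this]
    · exact fun h0 => h0.1

/-- the case `q = 3` -/
theorem part_three : ∃ K : ℝ, ∀ d : ℕ, 1 ≤ d →
      (Set.ncard {C : Finset (Fin d → ZMod 3) | Conn C ∧ ¬ ∀ t : ℝ, UniformMixing C t ↔
          (∃ k : ℤ, ¬ (3 : ℤ) ∣ k ∧ t = 2 * Real.pi * (k : ℝ) / 9) ∧ (Gram C).det ≠ 0} : ℝ) *
          ((3 : ℝ) ^ d) ^ (1 / 4 : ℝ) ≤
        K * (Set.ncard {C : Finset (Fin d → ZMod 3) | Conn C} : ℝ) := by
  obtain ⟨K, h⟩ := transfer 3 3 4 (by omega) (by omega) (by omega) (fun d =>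
      (UAA.t_GEQ UAA.t_RAM).2 3 d Nat.prime_three)
  refine ⟨K, fun d hd => ?_⟩
  have h1 := h d
  push_cast at h1
  refine bound_mono (rpow_nn 3 d) ?_ pc_three h1
  rintro C ⟨hC1, hC2⟩
  refine ⟨(pc_three C).2 hC1, fun hall => hC2 fun t => ?_⟩
  rw [um_iff]
  constructor
  · intro hF
    exact (UAA.t_TO3 d hd C hC1.1 hC1.2 t (hall t hF)).1 hF
  · rintro ⟨⟨k, hk3, hk⟩, hdet⟩
    refine (UAA.t_TO3 d hd C hC1.1 hC1.2 t ⟨3, by omega, by omega, ?_⟩).2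
      ⟨⟨k, hk3, hk⟩, hdet⟩
    refine (exp_iff t _ 9 (by norm_num)).2 ⟨k, ?_⟩
    rw [hk]
    push_cast
    ring

/-- the transfer for all connection sets, `p ≥ 5` -/
theorem almost_none (p : ℕ) [NeZero p] (hp : p.Prime) (h5 : 5 ≤ p) : ∃ K : ℝ, ∀ d : ℕ,
    (Set.ncard {C : Finset (Fin d → ZMod p) | Conn C ∧ ∃ t : ℝ, UniformMixing C t} : ℝ) *
        ((p : ℝ) ^ d) ^ (1 / 10 : ℝ) ≤
      K * (Set.ncard {C : Finset (Fin d → ZMod p) | Conn C} : ℝ) := by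
  classical
  have hp2 : p ≠ 2 := by omega
  have hWRE := UAB.t_WRE UAB.t_HLF UAB.t_UDF
  have hVAR := UAB.t_VAR UAB.t_HLF UAB.t_UDF
  have hMUU := UAB.t_MUU UAB.t_HLF UAB.t_UDF
  have hEXW := UAB.t_EXW UAB.t_COS UAB.t_UDF
  have hSTR := UAB.t_STR UAB.t_PL1 UAB.t_DEG UAB.t_PL2 UAB.t_LEM UAB.t_GRD
  have hSTQ := UAB.t_STQ UAB.t_REA UAB.t_GRD
  have hMOM := UAB.t_MOM (UAB.t_CMP UAB.t_CMV hSTR hSTQ) UAB.t_CTD UAB.t_UDF UAB.t_HLF
  have hWIN : UAB.WIN_Stmt := UAB.t_WIN (UAB.t_WS4 UAB.t_COS hVAR hEXW (UAB.t_PRC UAB.t_QUA))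
    (UAB.t_WS3 hEXW UAB.t_QUA) UAB.t_INT hMUU
  have hZWI := UAB.t_ZWI (UAB.t_ZT1 UAB.t_COS hVAR) (UAB.t_ZS4 UAB.t_COS hVAR UAB.t_GRD UAB.t_CTD)
    UAB.t_INT hMUU
  have hRAY := UAB.t_RAY UAB.t_DE1 UAB.t_DE2 hWRE UAB.t_WKK hMUU UAB.t_RAP
  obtain ⟨K, hK⟩ := UAB.t_FIN UAB.t_FLW UAB.t_DE1 UAB.t_DE2 hWRE (UAB.t_TYA UAB.t_HLF UAB.t_UDF)
    (UAB.t_BLK hMOM UAB.t_INT) hWIN hZWI hRAY p hp h5
  refine ⟨K, fun d => ?_⟩
  obtain ⟨H, hH⟩ := (UAB.t_HLF p d hp hp2).1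
  obtain ⟨h1, h2⟩ := UAB.t_TRF p d hp hp2 H hH
  have hA := h1 fun C => ∃ t : ℝ, Flat C t
  have hB := h1 fun _ => True
  have e1 : {C : Finset (Fin d → ZMod p) | Conn C ∧ ∃ t : ℝ, UniformMixing C t} =
      {C : Finset (UAA.G p d) | ((0 : UAA.G p d) ∉ C ∧ ∀ c ∈ C, -c ∈ C) ∧ ∃ t : ℝ, Flat C t} := by
    ext C
    simp only [Set.mem_ofPred_eq, um_iff, Conn]
  have e2 : {C : Finset (Fin d → ZMod p) | Conn C} =
      {C : Finset (UAA.G p d) | ((0 : UAA.G p d) ∉ C ∧ ∀ c ∈ C, -c ∈ C) ∧ True} := by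
    ext C
    simp only [Set.mem_ofPred_eq, and_true, Conn]
  have e3 : {A : Finset (UAA.G p d) | A ⊆ H ∧ True} =
      (H.powerset : Set (Finset (UAA.G p d))) := by
    ext A
    simp
  have e4 : {A : Finset (UAA.G p d) | A ⊆ H ∧ ∃ t : ℝ, Flat (A ∪ A.image fun c => -c) t} =
      {A : Finset (UAA.G p d) | A ⊆ H ∧ ∃ t : ℝ, UAB.FlatV (UAB.wt (UAB.ft p t) A)} := by
    ext A
    constructor
    · rintro ⟨hAH, t, ht⟩
      exact ⟨hAH, t, (h2 A hAH t).1 ht⟩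
    · rintro ⟨hAH, t, ht⟩
      exact ⟨hAH, t, (h2 A hAH t).2 ht⟩
  rw [e1, e2, hA, hB, e3, e4, Set.ncard_coe_finset, Finset.card_powerset]
  have h3 := hK d H hH
  unfold UAA.nn at h3
  push_cast
  exact h3

/-- The uniform mixing times of almost all Cayley graphs over `ℤ_p^d`, `p` prime: the odd multiples of
`π/4` if `p = 2`, the numbers `2πk/9`, `3 ∤ k`, if `p = 3` (in both cases if the Gram matrix of `C` is
nonsingular), no times at all otherwise. -/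
def Times {p d : ℕ} (C : Finset (Fin d → ZMod p)) (t : ℝ) : Prop :=
  (p = 2 ∧ (∃ k : ℤ, t = (2 * (k : ℝ) + 1) * Real.pi / 4) ∧ (Gram C).det ≠ 0) ∨
    (p = 3 ∧ (∃ k : ℤ, ¬ (3 : ℤ) ∣ k ∧ t = 2 * Real.pi * (k : ℝ) / 9) ∧ (Gram C).det ≠ 0)

/-- **Theorem.** Let `n = p ^ d`, respectively `n = q ^ d`.

(1) Let `p` be prime. For all but a proportion `K n^{-c}` of the connection sets `C ⊂ ℤ_p^d` the set of the
uniform mixing times of `X(ℤ_p^d, C)` is exactly `{t | Times C t}`; here `c = 1/4` if `p = 2, 3`, `c = 1/10` if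
`p ≥ 5`. For `p ≥ 5` this means: no uniform mixing at any time.

(2) For every `q ≥ 2` the proportion, among the Cayley graphs `X(ℤ_q^d, C)` with integer eigenvalues, of
those with a uniform mixing time `t` which is not of the form `2πk/j` with integers `k` and `1 ≤ j ≤ 8q` is
at most `K n^{-1/4}`.

(3) For `q ∈ {2, 3, 4, 6}` all Cayley graphs over `ℤ_q^d` have integer eigenvalues.

(4) For `p ≥ 5` prime the proportion of the Cayley graphs with uniform mixing among the Cayley graphs with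
integer eigenvalues is at most `K n^{-1/4}`. -/
theorem result :
    (∀ (p : ℕ) [NeZero p], p.Prime → ∃ K : ℝ, ∀ d : ℕ, 1 ≤ d →
      (Set.ncard {C : Finset (Fin d → ZMod p) | Conn C ∧
          ¬ ∀ t : ℝ, UniformMixing C t ↔ Times C t} : ℝ) *
          ((p : ℝ) ^ d) ^ (if p ≤ 3 then 1 / 4 else 1 / 10 : ℝ) ≤
        K * (Set.ncard {C : Finset (Fin d → ZMod p) | Conn C} : ℝ)) ∧
    (∀ (q : ℕ) [NeZero q], 2 ≤ q → ∃ K : ℝ, ∀ d : ℕ,
      (Set.ncard {C : Finset (Fin d → ZMod q) | Conn C ∧ IntegerEigenvalues C ∧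
          ∃ t : ℝ, UniformMixing C t ∧ ¬ ∃ j : ℕ, 1 ≤ j ∧ j ≤ 8 * q ∧
            ∃ k : ℤ, (j : ℝ) * t = 2 * Real.pi * (k : ℝ)} : ℝ) * ((q : ℝ) ^ d) ^ (1 / 4 : ℝ) ≤
        K * (Set.ncard {C : Finset (Fin d → ZMod q) | Conn C ∧ IntegerEigenvalues C} : ℝ)) ∧
    (∀ (q : ℕ) [NeZero q], (q = 2 ∨ q = 3 ∨ q = 4 ∨ q = 6) → ∀ (d : ℕ)
      (C : Finset (Fin d → ZMod q)), Conn C → IntegerEigenvalues C) ∧
    (∀ (p : ℕ) [NeZero p], p.Prime → 5 ≤ p → ∃ K : ℝ, ∀ d : ℕ, 1 ≤ d →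
      (Set.ncard {C : Finset (Fin d → ZMod p) | Conn C ∧ IntegerEigenvalues C ∧
          ∃ t : ℝ, UniformMixing C t} : ℝ) * ((p : ℝ) ^ d) ^ (1 / 4 : ℝ) ≤
        K * (Set.ncard {C : Finset (Fin d → ZMod p) | Conn C ∧ IntegerEigenvalues C} : ℝ)) := by
  refine ⟨?_, ?_, ?_, ?_⟩
  · intro p _ hp
    have hcases : p = 2 ∨ p = 3 ∨ 5 ≤ p := by
      rcases Nat.lt_or_ge p 5 with h | h
      · interval_cases p
        · exact absurd hp (by norm_num)
        · exact absurd hp (by norm_num)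
        · exact Or.inl rfl
        · exact Or.inr (Or.inl rfl)
        · exact absurd hp (by norm_num)
      · exact Or.inr (Or.inr h)
    rcases hcases with rfl | rfl | h5
    · obtain ⟨K, h⟩ := part_two
      refine ⟨K, fun d hd => ?_⟩
      have h1 := h d hd
      have e : (if 2 ≤ 3 then 1 / 4 else 1 / 10 : ℝ) = 1 / 4 := if_pos (by norm_num)
      rw [e]
      push_cast
      refine le_trans (le_of_eq ?_) h1
      congr 3
      ext C
      simp [Times]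
    · obtain ⟨K, h⟩ := part_three
      refine ⟨K, fun d hd => ?_⟩
      have h1 := h d hd
      have e : (if 3 ≤ 3 then 1 / 4 else 1 / 10 : ℝ) = 1 / 4 := if_pos le_rfl
      rw [e]
      push_cast
      refine le_trans (le_of_eq ?_) h1
      congr 3
      ext C
      simp [Times]
    · obtain ⟨K, h⟩ := almost_none p hp h5
      refine ⟨K, fun d _ => ?_⟩
      have e : (if p ≤ 3 then 1 / 4 else 1 / 10 : ℝ) = 1 / 10 := if_neg (by omega)
      rw [e]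
      refine bound_mono (by positivity) ?_ (fun _ => Iff.rfl) (h d)
      rintro C ⟨hC, hC2⟩
      refine ⟨hC, ?_⟩
      by_contra hno
      push Not at hno
      refine hC2 fun t => ⟨fun h => absurd h (hno t), ?_⟩
      rintro (⟨h2, -⟩ | ⟨h3, -⟩)
      · omega
      · omega
  · intro q _ hq
    obtain ⟨K, h⟩ := transfer q 1 (8 * q) hq le_rfl (by omega) (fun d =>
      (UAA.t_GEQ UAA.t_RAM).1 q d)
    refine ⟨K, fun d => ?_⟩
    refine bound_mono (rpow_nn q d) ?_ pc_iff (h d)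
    rintro C ⟨hC1, hC2, t, ht, hj⟩
    refine ⟨(pc_iff C).2 ⟨hC1, hC2⟩, fun hall => hj ?_⟩
    obtain ⟨j, hj1, hj2, hj3⟩ := hall t ((um_iff C t).1 ht)
    exact ⟨j, hj1, hj2, (exp_iff t _ j (by push_cast; ring)).1 hj3⟩
  · intro q _ hq d C hC
    rw [int_iff]
    intro x
    exact integral_small hq C hC.2 (chr x)
  · intro p _ hp hp5
    obtain ⟨K, h⟩ := transfer p p 4 (by omega) (by omega) (by omega) (fun d =>
      (UAA.t_GEQ UAA.t_RAM).2 p d hp)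
    refine ⟨K, fun d hd => ?_⟩
    refine bound_mono (rpow_nn p d) ?_ pc_iff (h d)
    rintro C ⟨hC1, hC2, t, ht⟩
    have hPC : UAA.PC C := (pc_iff C).2 ⟨hC1, hC2⟩
    refine ⟨hPC, fun hall => ?_⟩
    have hF := (um_iff C t).1 ht
    exact UAA.t_TO5 p d hp hp5 hd C hPC t (hall t hF) hF

end Pool.Agent.Results.MP_e32761_co.AlmostAll
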