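import Mathlib
import Pool.Agent.Lib_helper58.CayleyUM2
import Pool.Agent.Lib_helper58.CayleyUM3
import Pool.Agent.Lib_helper58.CayleyUM4

/-!
# Uniform mixing times of Cayley graphs over `ℤ_q^d`: the Butson case and the bipartite case

`G = Fin (d+1) → ZMod (q+2)` (so the problem's `q`, `d` are `q+2`, `d+1` here), `C` is the
connection set, `U q d C t = exp(itA)`.
-/

set_option autoImplicit false

namespace Pool.Agent.Results.MP_e32761_co.Butson

/-- The walk matrix `exp(itA)` of the Cayley graph `X(ℤ_{q+2}^{d+1}, C)`. -/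
noncomputable def U (q d : ℕ) (C : Finset (Fin (d + 1) → ZMod (q + 2))) (t : ℝ) :
    Matrix (Fin (d + 1) → ZMod (q + 2)) (Fin (d + 1) → ZMod (q + 2)) ℂ :=
  NormedSpace.exp ((Complex.I * (t : ℂ)) •
    (Matrix.of fun x y : Fin (d + 1) → ZMod (q + 2) => if y - x ∈ C then (1 : ℂ) else 0))

/-- All eigenvalues `∑_{c ∈ C} ψ(c)` of the Cayley graph are integers. -/
def Integral (q d : ℕ) (C : Finset (Fin (d + 1) → ZMod (q + 2))) : Prop :=
  ∀ ψ : AddChar (Fin (d + 1) → ZMod (q + 2)) ℂ, ∃ m : ℤ, ∑ c ∈ C, ψ c = (m : ℂ)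

/-- The Cayley graph has a proper colouring with two colours. -/
def Bipartite (q d : ℕ) (C : Finset (Fin (d + 1) → ZMod (q + 2))) : Prop :=
  ∃ f : (Fin (d + 1) → ZMod (q + 2)) → Bool, ∀ a b, b - a ∈ C → f a ≠ f b

/-- All ratios of entries of the first row of `U(t)` are `N`-th roots of unity
(`√n U(t)` is, up to one scalar, a Butson matrix over `N`-th roots of unity). -/
def ButsonRatios (N q d : ℕ) (C : Finset (Fin (d + 1) → ZMod (q + 2))) (t : ℝ) : Prop :=
  ∀ b, U q d C t 0 b ^ N = U q d C t 0 0 ^ N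

/-- The entries of `√n U(t)` themselves are `N`-th roots of unity. -/
def ButsonEntries (N q d : ℕ) (C : Finset (Fin (d + 1) → ZMod (q + 2))) (t : ℝ) : Prop :=
  ∀ b, ((Real.sqrt ((q + 2 : ℝ) ^ (d + 1)) : ℂ) * U q d C t 0 b) ^ N = 1

/-- Every prime divisor `p` of `q+2` is self-conjugate modulo `N`: some power of `p` is `-1`
modulo the prime-to-`p` part (or a larger cofactor `m`, `N = p^s m`) of `N`. -/
def SelfConj (N q : ℕ) : Prop :=
  ∀ p : ℕ, p.Prime → p ∣ q + 2 → ∃ j s m : ℕ, N = p ^ s * m ∧ m ∣ p ^ j + 1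

open Pool.Agent.Lib_helper58.CayleyUM in
theorem result (q d : ℕ) (C : Finset (Fin (d + 1) → ZMod (q + 2)))
    (h0 : (0 : Fin (d + 1) → ZMod (q + 2)) ∉ C) (hC : ∀ c ∈ C, -c ∈ C) (t : ℝ)
    (hflat : ∀ a b : Fin (d + 1) → ZMod (q + 2),
      ‖U q d C t a b‖ ^ 2 = 1 / ((q + 2 : ℝ) ^ (d + 1))) :
    -- (A) integral graph, Butson type mixing
    (Integral q d C → (∃ N : ℕ, 0 < N ∧ ButsonRatios N q d C t) →
      ∃ r : ℚ, t = (r : ℝ) * Real.pi) ∧
    -- (A') integral bipartite graph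
    (Integral q d C → Bipartite q d C → ∃ r : ℚ, t = (r : ℝ) * Real.pi) ∧
    -- (B) arbitrary graph, Butson type mixing, self-conjugate primes
    ((∃ N : ℕ, 0 < N ∧ (q + 2) ∣ N ∧ SelfConj N q ∧ ButsonRatios N q d C t) →
      ∃ r : ℚ, t = (r : ℝ) * Real.pi) ∧
    -- (B') arbitrary graph, entries of `√n U(t)` roots of unity, self-conjugate primes
    ((∃ N : ℕ, 0 < N ∧ SelfConj N q ∧ ButsonEntries N q d C t) →
      ∃ r : ℚ, t = (r : ℝ) * Real.pi) ∧
    -- (C) arbitrary bipartite graph, no prime `1 mod 4` dividing the modulus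
    ((∀ p : ℕ, p.Prime → p ∣ q + 2 → p % 4 ≠ 1) → Bipartite q d C →
      ∃ j : ℤ, 4 * (C.card : ℝ) * t = j * Real.pi) := by
  classical
  have hcard : Fintype.card (Fin (d + 1) → ZMod (q + 2)) = (q + 2) ^ (d + 1) := by
    rw [Fintype.card_fun, ZMod.card, Fintype.card_fin]
  have hcardR : ((Fintype.card (Fin (d + 1) → ZMod (q + 2)) : ℕ) : ℝ) = (q + 2 : ℝ) ^ (d + 1) := by
    rw [hcard]; push_cast; ring
  have hrow : ∀ b, row C t b = U q d C t 0 b := fun b => rfl
  have hF : Flat C t := by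
    intro b
    rw [hrow, hflat, hcardR]
  have hne : C.Nonempty := by
    by_contra hempty
    rw [Finset.not_nonempty_iff_eq_empty] at hempty
    have h1 : U q d C t = 1 := by
      unfold U
      have : (Matrix.of fun x y : Fin (d + 1) → ZMod (q + 2) =>
          if y - x ∈ C then (1 : ℂ) else 0) = 0 := by
        ext x y; simp [hempty]
      rw [this, smul_zero, NormedSpace.exp_zero]
    have h2 := hflat 0 (fun _ => 1)
    have h3 : (0 : Fin (d + 1) → ZMod (q + 2)) ≠ fun _ => 1 := by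
      intro h
      have h5 := congrFun h 0
      have : Fact (1 < q + 2) := ⟨by omega⟩
      exact zero_ne_one (α := ZMod (q + 2)) h5
    rw [h1, Matrix.one_apply_ne h3] at h2
    have h4 : (0 : ℝ) < 1 / ((q + 2 : ℝ) ^ (d + 1)) := by positivity
    rw [← h2] at h4
    simp at h4
  have hdvd : ∀ p : ℕ, p.Prime → p ∣ Fintype.card (Fin (d + 1) → ZMod (q + 2)) → p ∣ q + 2 := by
    intro p hp h
    rw [hcard] at h
    exact hp.dvd_of_dvd_pow h
  refine ⟨?_, ?_, ?_, ?_, ?_⟩
  · rintro hint ⟨N, hN, hB⟩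
    exact partA h0 hne hF hint N hN hB
  · rintro hint ⟨f, hf⟩
    refine partA h0 hne hF hint 4 (by norm_num) ?_
    intro b
    have h1 := bip_pow_four hC f hf hF b
    have h2 := bip_pow_four hC f hf hF 0
    have h3 : (Real.sqrt (Fintype.card (Fin (d + 1) → ZMod (q + 2))) : ℂ) ^ 4 ≠ 0 := by
      intro h
      rw [mul_pow, h, zero_mul] at h1
      exact zero_ne_one h1
    rw [mul_pow] at h1 h2
    exact mul_left_cancel₀ h3 (h1.trans h2.symm)
  · rintro ⟨N, hN, hqN, hsc, hB⟩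
    refine partB h0 hC hne hF N hN ?_ ?_ hB
    · intro ψ b
      obtain ⟨c, hc⟩ := hqN
      have hb : (q + 2) • b = 0 := by
        funext i
        simp [nsmul_eq_mul]
      have h1 : ψ b ^ (q + 2) = 1 := by
        rw [← AddChar.map_nsmul_eq_pow, hb, AddChar.map_zero_eq_one]
      rw [hc, pow_mul, h1, one_pow]
    · intro p hp hpd
      exact hsc p hp (hdvd p hp hpd)
  · rintro ⟨N, hN, hsc, hB⟩
    refine partC hC hne N hN ?_ ?_
    · intro p hp hpd
      exact hsc p hp (hdvd p hp hpd)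
    · intro b
      rw [hcardR]
      exact hB b
  · rintro hp ⟨f, hf⟩
    exact partBip hC f hf hF (fun p hp1 hp2 => hp p hp1 (hdvd p hp1 hp2))

end Pool.Agent.Results.MP_e32761_co.Butson
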