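import Mathlib
import Pool.Agent.UMix.Main

/-!
# Uniform mixing on Cayley graphs over `ℤ_q^d`: is integrality of the eigenvalues forced?

`G = ℤ_q^d` is `Fin d → ZMod q`; `C` is the connection set.
-/

set_option autoImplicit false

namespace Pool.Agent.Results.MP_e32761_co.IntegralityForced

/-- The adjacency matrix of the Cayley graph `X(ℤ_q^d, C)`. -/
noncomputable def A {q d : ℕ} (C : Finset (Fin d → ZMod q)) :
    Matrix (Fin d → ZMod q) (Fin d → ZMod q) ℂ :=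
  Matrix.of fun x y => if y - x ∈ C then (1 : ℂ) else 0

/-- `C` is inverse-closed and does not contain `0`. -/
def Conn {q d : ℕ} (C : Finset (Fin d → ZMod q)) : Prop :=
  (0 : Fin d → ZMod q) ∉ C ∧ ∀ c ∈ C, -c ∈ C

/-- Uniform mixing at the time `t`: every entry of `exp(itA)` has absolute value `1 / √n`,
`n = q ^ d`. -/
def UniformMixing {q d : ℕ} [NeZero q] (C : Finset (Fin d → ZMod q)) (t : ℝ) : Prop :=
  ∀ a b : Fin d → ZMod q,
    ‖NormedSpace.exp ((Complex.I * (t : ℂ)) • A C) a b‖ = 1 / Real.sqrt ((q : ℝ) ^ d)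

/-- Every eigenvalue of the adjacency matrix is an integer. -/
def IntegerEigenvalues {q d : ℕ} [NeZero q] (C : Finset (Fin d → ZMod q)) : Prop :=
  ∀ μ : ℂ, (∃ v : (Fin d → ZMod q) → ℂ, v ≠ 0 ∧ (A C).mulVec v = μ • v) → ∃ k : ℤ, μ = (k : ℂ)

open Pool.Agent.Lib_helper58.CayleyUM Pool.Agent.UMix

theorem int_iff {q d : ℕ} [NeZero q] (C : Finset (Fin d → ZMod q)) :
    IntegerEigenvalues C ↔ ∀ x : Fin d → ZMod q, ∃ k : ℤ, lam C (chr x) = (k : ℂ) := by
  constructor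
  · intro h x
    exact h _ (lam_eig C (chr x))
  · rintro h μ ⟨v, hv, hA⟩
    obtain ⟨ψ, hψ⟩ := eig_eq_lam C μ v hv hA
    obtain ⟨x, rfl⟩ := chr_bijective.2 ψ
    obtain ⟨k, hk⟩ := h x
    exact ⟨k, hψ.trans hk⟩

theorem um_of_walk {q m : ℕ} [NeZero q] (C : Finset (Fin (m + m) → ZMod q))
    (h : ∀ a b, (q : ℝ) ^ m * ‖walk C (Complex.I * (tt q : ℂ)) a b‖ = 1) :
    UniformMixing C (2 * Real.pi / (q : ℝ) ^ 3) := by
  intro a b
  have hq : (0 : ℝ) < (q : ℝ) ^ m := pow_pos (Nat.cast_pos.2 (Nat.pos_of_ne_zero (NeZero.ne q))) m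
  have h1 : Real.sqrt ((q : ℝ) ^ (m + m)) = (q : ℝ) ^ m := by
    rw [pow_add, Real.sqrt_mul_self hq.le]
  rw [h1, eq_div_iff hq.ne', mul_comm]
  exact h a b

theorem int_empty {q d : ℕ} [NeZero q] :
    IntegerEigenvalues (∅ : Finset (Fin d → ZMod q)) := by
  rw [int_iff]
  intro x
  refine ⟨0, ?_⟩
  unfold lam
  simp

/-- Let `q ≥ 2`.

(A) For all large `m`, every Cayley graph `X(ℤ_q^m, D)` is the part on the subgroup `ℤ_q^m × 0`
of a Cayley graph `X(ℤ_q^{2m}, C)` with uniform mixing at the time `2π/q³`, and `C` has only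
integer eigenvalues if and only if `D` has.

(B) For all large `m` there is an example with integer eigenvalues, and, if
`q ∉ {2, 3, 4, 6}`, also one with a non-integer eigenvalue.

(C) Uniform mixing forces integer eigenvalues over `ℤ_q^d` (for all `d ≥ 1`) if and only if
`q ∈ {2, 3, 4, 6}`. -/
theorem result (q : ℕ) [NeZero q] (hq : 2 ≤ q) :
    (∃ m₀ : ℕ, ∀ m ≥ m₀, ∀ D : Finset (Fin m → ZMod q), Conn D →
      ∃ C : Finset (Fin (m + m) → ZMod q), Conn C ∧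
        UniformMixing C (2 * Real.pi / (q : ℝ) ^ 3) ∧
        (∀ x : Fin m → ZMod q, Fin.append x (0 : Fin m → ZMod q) ∈ C ↔ x ∈ D) ∧
        (IntegerEigenvalues C ↔ IntegerEigenvalues D)) ∧
    (∃ m₀ : ℕ, ∀ m ≥ m₀,
      (∃ C : Finset (Fin (m + m) → ZMod q), Conn C ∧
        UniformMixing C (2 * Real.pi / (q : ℝ) ^ 3) ∧ IntegerEigenvalues C) ∧
      (¬ (q = 2 ∨ q = 3 ∨ q = 4 ∨ q = 6) →
        ∃ C : Finset (Fin (m + m) → ZMod q), Conn C ∧
          UniformMixing C (2 * Real.pi / (q : ℝ) ^ 3) ∧ ¬ IntegerEigenvalues C)) ∧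
    ((∀ (d : ℕ) (C : Finset (Fin d → ZMod q)), 1 ≤ d → Conn C →
        (∃ t : ℝ, UniformMixing C t) → IntegerEigenvalues C) ↔
      (q = 2 ∨ q = 3 ∨ q = 4 ∨ q = 6)) := by
  have hA : ∃ m₀ : ℕ, ∀ m ≥ m₀, ∀ D : Finset (Fin m → ZMod q), Conn D →
      ∃ C : Finset (Fin (m + m) → ZMod q), Conn C ∧
        UniformMixing C (2 * Real.pi / (q : ℝ) ^ 3) ∧
        (∀ x : Fin m → ZMod q, Fin.append x (0 : Fin m → ZMod q) ∈ C ↔ x ∈ D) ∧
        (IntegerEigenvalues C ↔ IntegerEigenvalues D) := by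
    obtain ⟨m₀, h⟩ := family q
    refine ⟨m₀, fun m hm D hD => ?_⟩
    obtain ⟨C, hC0, hC, hw, hCD, hlam⟩ := h m hm D hD.1 hD.2
    refine ⟨C, ⟨hC0, hC⟩, um_of_walk C hw, hCD, ?_⟩
    rw [int_iff, int_iff]
    constructor
    · intro h1 u
      obtain ⟨k, hk⟩ := hlam u 0
      obtain ⟨k', hk'⟩ := h1 (Fin.append u (0 : Fin m → ZMod q))
      refine ⟨k' - k, ?_⟩
      push_cast
      rw [← hk', hk]
      ring
    · intro h1 x
      have hx : Fin.append (fun i => x (Fin.castAdd m i)) (fun i => x (Fin.natAdd m i)) = x :=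
        Fin.append_castAdd_natAdd
      obtain ⟨k, hk⟩ := hlam (fun i => x (Fin.castAdd m i)) (fun i => x (Fin.natAdd m i))
      obtain ⟨k', hk'⟩ := h1 (fun i => x (Fin.castAdd m i))
      refine ⟨k + k', ?_⟩
      rw [← hx, hk, hk']
      push_cast
      rfl
  have hB : ∃ m₀ : ℕ, ∀ m ≥ m₀,
      (∃ C : Finset (Fin (m + m) → ZMod q), Conn C ∧
        UniformMixing C (2 * Real.pi / (q : ℝ) ^ 3) ∧ IntegerEigenvalues C) ∧
      (¬ (q = 2 ∨ q = 3 ∨ q = 4 ∨ q = 6) →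
        ∃ C : Finset (Fin (m + m) → ZMod q), Conn C ∧
          UniformMixing C (2 * Real.pi / (q : ℝ) ^ 3) ∧ ¬ IntegerEigenvalues C) := by
    obtain ⟨m₀, h⟩ := hA
    refine ⟨max m₀ 1, fun m hm => ?_⟩
    have hm0 : m ≥ m₀ := le_trans (le_max_left _ _) hm
    have hm1 : 1 ≤ m := le_trans (le_max_right _ _) hm
    refine ⟨?_, fun hne => ?_⟩
    · obtain ⟨C, hC, hu, -, hi⟩ := h m hm0 ∅ ⟨by simp, by simp⟩
      exact ⟨C, hC, hu, hi.2 int_empty⟩
    · have hq3 : 3 ≤ q := by omega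
      have hq57 : q = 5 ∨ 7 ≤ q := by omega
      obtain ⟨D, hD0, hD, u, hu⟩ := pair_spec (q := q) (m := m) hq3 hm1
      obtain ⟨C, hC, hum, -, hi⟩ := h m hm0 D ⟨hD0, hD⟩
      refine ⟨C, hC, hum, fun hint => ?_⟩
      obtain ⟨k, hk⟩ := (int_iff D).1 (hi.1 hint) u
      rw [hu] at hk
      apply cos_not_int hq57 k
      exact_mod_cast hk
  refine ⟨hA, hB, ?_⟩
  constructor
  · intro h
    by_contra hne
    obtain ⟨m₀, hm⟩ := hB
    obtain ⟨C, hC, hu, hi⟩ := (hm (max m₀ 1) (le_max_left _ _)).2 hne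
    refine hi (h _ C ?_ hC ⟨_, hu⟩)
    have : 1 ≤ max m₀ 1 := le_max_right _ _
    omega
  · rintro h d C - hC -
    rw [int_iff]
    intro x
    exact integral_small h C hC.2 (chr x)

end Pool.Agent.Results.MP_e32761_co.IntegralityForced
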