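import Mathlib
import Pool.Agent.Lib_helper43.NonInt.FlatE
import Pool.Agent.Lib_helper43.NonInt.Integ

/-!
# All uniform mixing times of some Cayley graphs over `ℤ_5^n` with irrational eigenvalues

`pts` is a set of 21 points of the projective space `PG(3, 5)`; `conn e` is the set of the nonzero
multiples of the corresponding vectors of `ℤ_5^{4+e}` (the last `e` coordinates are zero). The graphs
have the connection sets `conn e ∪ D`, where `D` is an arbitrary symmetric set of nonzero vectors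
with `x_2 = x_3 = 0`.
-/

set_option autoImplicit false

namespace Pool.Agent.Results.MP_e32761_co.NonIntegral

/-- The walk matrix `exp(itA)` of the Cayley graph `X(ℤ_5^n, C)`. -/
noncomputable def U {n : ℕ} (C : Finset (Fin n → ZMod 5)) (t : ℝ) :
    Matrix (Fin n → ZMod 5) (Fin n → ZMod 5) ℂ :=
  NormedSpace.exp ((Complex.I * (t : ℂ)) •
    (Matrix.of fun x y : Fin n → ZMod 5 => if y - x ∈ C then (1 : ℂ) else 0))

/-- Uniform mixing at the time `t`. -/
def UniformMixing {n : ℕ} (C : Finset (Fin n → ZMod 5)) (t : ℝ) : Prop :=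
  ∀ a b : Fin n → ZMod 5, ‖U C t a b‖ ^ 2 = 1 / (5 : ℝ) ^ n

/-- All eigenvalues `∑_{c ∈ C} ψ(c)` of the Cayley graph are integers. -/
def Integral {n : ℕ} (C : Finset (Fin n → ZMod 5)) : Prop :=
  ∀ ψ : AddChar (Fin n → ZMod 5) ℂ, ∃ k : ℤ, ∑ c ∈ C, ψ c = (k : ℂ)

/-- 21 points of the projective space over `ℤ_5`. -/
def pts : List (ℕ × ℕ × ℕ × ℕ) :=
  [(0, 1, 0, 3), (0, 1, 2, 2), (0, 1, 4, 4), (1, 0, 0, 3), (1, 0, 2, 4), (1, 0, 3, 2),
   (1, 0, 4, 4), (1, 1, 0, 1), (1, 1, 0, 3), (1, 1, 2, 3), (1, 2, 0, 1), (1, 2, 1, 1),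
   (1, 2, 2, 3), (1, 2, 3, 0), (1, 3, 0, 3), (1, 3, 1, 3), (1, 3, 3, 2), (1, 3, 3, 3),
   (1, 4, 1, 4), (1, 4, 2, 2), (1, 4, 2, 3)]

/-- The fixed part of the connection sets: the nonzero multiples of the 21 vectors. -/
def conn (e : ℕ) : Finset (Fin (4 + e) → ZMod 5) :=
  Finset.univ.filter fun x => ∃ p ∈ pts, ∃ k : ZMod 5, k ≠ 0 ∧
    x = k • Fin.append ![(p.1 : ZMod 5), (p.2.1 : ZMod 5), (p.2.2.1 : ZMod 5), (p.2.2.2 : ZMod 5)]
      (fun _ => 0)

/-- The admissible sets `D`: symmetric sets of nonzero vectors with `x_2 = x_3 = 0` (the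
coordinates are `x_0, x_1, ...`). -/
def Adm {e : ℕ} (D : Finset (Fin (4 + e) → ZMod 5)) : Prop :=
  (0 : Fin (4 + e) → ZMod 5) ∉ D ∧ (∀ x ∈ D, -x ∈ D) ∧
    ∀ x ∈ D, x (Fin.castAdd e 2) = 0 ∧ x (Fin.castAdd e 3) = 0

open Pool.Agent.Lib_helper58.CayleyUM Pool.Agent.Lib_helper43.NonInt

theorem conn_eq (e : ℕ) : conn e = C0 e := by
  ext x
  rw [mem_C0]
  unfold conn
  rw [Finset.mem_filter]
  exact ⟨fun h => h.2, fun h => ⟨Finset.mem_univ _, h⟩⟩

theorem flat_of_mixing {n : ℕ} {C : Finset (Fin n → ZMod 5)} {t : ℝ} (h : UniformMixing C t) :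
    Flat C t := by
  intro b
  have h1 : row C t b = U C t 0 b := rfl
  have h2 : ((Fintype.card (Fin n → ZMod 5) : ℕ) : ℝ) = (5 : ℝ) ^ n := by
    rw [Fintype.card_fun, ZMod.card, Fintype.card_fin]
    push_cast
    ring
  rw [h1, h, h2]

theorem result :
    (∀ (e : ℕ) (D : Finset (Fin (4 + e) → ZMod 5)), Adm D →
      -- `conn e ∪ D` is the connection set of a Cayley graph
      ((0 : Fin (4 + e) → ZMod 5) ∉ conn e ∪ D ∧ ∀ x ∈ conn e ∪ D, -x ∈ conn e ∪ D) ∧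
      -- every uniform mixing time is `2 π m / 25` with an integer `m` not divisible by `5`
      (∀ t : ℝ, UniformMixing (conn e ∪ D) t →
        ∃ m : ℤ, ¬ (5 : ℤ) ∣ m ∧ t = 2 * Real.pi * m / 25) ∧
      -- the eigenvalues are integers if and only if `D` is closed under multiplication by `2`
      (Integral (conn e ∪ D) ↔ ∀ x ∈ D, (2 : ZMod 5) • x ∈ D)) ∧
    -- over `ℤ_5^4` uniform mixing takes place exactly at these times
    (∀ D : Finset (Fin (4 + 0) → ZMod 5), Adm D → ∀ t : ℝ,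
      UniformMixing (conn 0 ∪ D) t ↔ ∃ m : ℤ, ¬ (5 : ℤ) ∣ m ∧ t = 2 * Real.pi * m / 25) := by
  have main : ∀ (e : ℕ) (D : Finset (Fin (4 + e) → ZMod 5)), Adm D →
      ((0 : Fin (4 + e) → ZMod 5) ∉ conn e ∪ D ∧ ∀ x ∈ conn e ∪ D, -x ∈ conn e ∪ D) ∧
      (∀ t : ℝ, UniformMixing (conn e ∪ D) t →
        ∃ m : ℤ, ¬ (5 : ℤ) ∣ m ∧ t = 2 * Real.pi * m / 25) ∧
      (Integral (conn e ∪ D) ↔ ∀ x ∈ D, (2 : ZMod 5) • x ∈ D) := by
    intro e D hD
    rw [conn_eq]
    refine ⟨⟨?_, ?_⟩, ?_, ?_⟩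
    · intro h
      rcases Finset.mem_union.1 h with h | h
      · obtain ⟨p, hp, k, hk, h0⟩ := mem_C0.1 h
        have h2 := congrFun h0.symm (Fin.castAdd e 2)
        have h3 := congrFun h0.symm (Fin.castAdd e 3)
        rw [Pi.smul_apply, emb_hd, smul_eq_mul] at h2 h3
        exact pts_off p hp
          ⟨(mul_eq_zero.1 h2).resolve_left hk, (mul_eq_zero.1 h3).resolve_left hk⟩
      · exact hD.1 h
    · intro x hx
      rcases Finset.mem_union.1 hx with h | h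
      · obtain ⟨p, hp, k, hk, rfl⟩ := mem_C0.1 h
        refine Finset.mem_union_left _ (mem_C0.2 ⟨p, hp, -k, neg_ne_zero.2 hk, ?_⟩)
        rw [neg_smul]
      · exact Finset.mem_union_right _ (hD.2.1 x h)
    · intro t ht
      exact time_of_flat hD.2.2 hD.2.1 t (flat_of_mixing ht)
    · have h := integral_iff (D := D) hD.2.2
      simp only [two_smul]
      exact h
  have second : ∀ D : Finset (Fin (4 + 0) → ZMod 5), Adm D → ∀ t : ℝ,
      UniformMixing (conn 0 ∪ D) t ↔ ∃ m : ℤ, ¬ (5 : ℤ) ∣ m ∧ t = 2 * Real.pi * m / 25 := by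
    intro D hD t
    refine ⟨(main 0 D hD).2.1 t, ?_⟩
    rintro ⟨m, hm, rfl⟩ a b
    have h1 := flat_of_time hD.2.2 hD.2.1 m hm a b
    have h2 : U (conn 0 ∪ D) (2 * Real.pi * m / 25) a b =
        walk (C0 0 ∪ D) (Complex.I * ((2 * Real.pi * m / 25 : ℝ) : ℂ)) a b := by
      rw [conn_eq]
      rfl
    rw [h2, h1]
    norm_num
  exact ⟨main, second⟩

end Pool.Agent.Results.MP_e32761_co.NonIntegral
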